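import Pool.Agent.H66.SYM.Basic

/-!
# Module CN1: connectedness at the archimedean place
-/

set_option autoImplicit false

namespace Pool.H66.SYM

open Filter Topology

theorem CN1_multiset (X : Multiset ℂ) :
    Continuous (fun x : ℝ => (X.map fun z => Complex.exp (z * x)).sum) := by
  induction X using Multiset.induction_on with
  | empty => simpa using continuous_const
  | cons a s ih =>
    simp only [Multiset.map_cons, Multiset.sum_cons]
    refine Continuous.add ?_ ih
    exact Complex.continuous_exp.comp (continuous_const.mul Complex.continuous_ofReal)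

theorem CN1_cont (A : Aut) (τ : A.Cusp) (m : ℕ) (F : A.Pt → ℂ) (hF : F ∈ A.RR τ m) :
    Continuous (fun x : ℝ => F ⟨A.inf, A.u x, 1⟩) := by
  unfold AData.RR at hF
  induction hF using AddSubgroup.closure_induction with
  | mem f hf =>
    obtain ⟨σ, _, rfl⟩ := hf
    have h : (fun x : ℝ => A.tr σ ⟨A.inf, A.u x, 1⟩) =
        fun x : ℝ => ((A.mu σ).map fun z => Complex.exp (z * x)).sum := by
      funext x
      unfold AData.tr
      rw [A.eig_u]
    rw [h]
    exact CN1_multiset _
  | zero => exact continuous_const
  | add f g _ _ hf hg => exact hf.add hg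
  | neg f _ hf => exact hf.neg

theorem s_CN1 : S_CN1 := by
  intro A τ m M _ F hF B hB x
  have hc := CN1_cont A τ m F hF
  set T : Set ℂ := (fun i : ℕ => (i : ℂ)) '' Set.Iic B with hT
  have hfin : T.Finite := (Set.finite_Iic B).image _
  have : Finite T := hfin.to_subtype
  have hm : Set.MapsTo (fun x : ℝ => F ⟨A.inf, A.u x, 1⟩) Set.univ T := by
    intro y _
    obtain ⟨i, hi, h⟩ := hB y
    exact ⟨i, hi, h.symm⟩
  have h := isPreconnected_univ.constant_of_mapsTo hfin.isDiscrete hc.continuousOn hm (Set.mem_univ x)
    (Set.mem_univ (0 : ℝ))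
  rw [h, A.u_zero]

end Pool.H66.SYM
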